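import Pool.Agent.W833.BD.Decor

/-!
# Ballistic deposition in high dimension: covariances bounded below on average

The symmetrised law of `Pool.Agent.W833.BD` satisfies
`∑ i j, w i w j Cov(φ(δg(x i)), φ(δg(x j))) ≥ ε (∑ i, w i)²` for all finite families of sites and
weights, and along every direction the set of `k` with `Cov(φ(δg(0)), φ(δg(k z))) ≥ ε` has positive
lower density.
-/

set_option autoImplicit false
set_option linter.unusedSectionVars false

namespace Pool.Agent.Y155.BD

open MeasureTheory Filter Topology ProbabilityTheory Pool.Agent.W833.BD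
open scoped ENNReal

variable {d : ℕ} [NeZero d]

/-- the second moment of weighted sums -/
lemma sq_ge_w {ν : Measure (Om d)} (hν : Nice ν) (R : ℕ) (x : ℕ → V d) (w : ℕ → ℝ) (N : ℕ) :
    ((∑ i ∈ Finset.range N, w i) * ∫ g, phi R (grad g 0) ∂ν) ^ 2
      ≤ ∑ i ∈ Finset.range N, ∑ j ∈ Finset.range N,
        w i * w j * ∫ g, phi R (grad g (x i)) * phi R (grad g (x j)) ∂ν := by
  have := hν.wstat.prob
  set Y : Om d → ℝ := fun g => ∑ i ∈ Finset.range N, w i * phi R (grad g (x i)) with hY
  have hYi : Integrable Y ν :=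
    integrable_finsetSum _ fun i _ => (int_phi hν R (x i)).const_mul (w i)
  have hYm : ∫ g, Y g ∂ν = (∑ i ∈ Finset.range N, w i) * ∫ g, phi R (grad g 0) ∂ν := by
    rw [hY, integral_finsetSum _ fun i _ => (int_phi hν R (x i)).const_mul (w i), Finset.sum_mul]
    refine Finset.sum_congr rfl fun i _ => ?_
    rw [integral_const_mul, mean_phi hν R]
  have hYY : ∀ g, Y g * Y g = ∑ i ∈ Finset.range N, ∑ j ∈ Finset.range N,
      w i * w j * (phi R (grad g (x i)) * phi R (grad g (x j))) := by
    intro g
    rw [hY, Finset.sum_mul_sum]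
    refine Finset.sum_congr rfl fun i _ => Finset.sum_congr rfl fun j _ => by ring
  have hYYi : Integrable (fun g => Y g * Y g) ν := by
    simp only [hYY]
    exact integrable_finsetSum _ fun i _ => integrable_finsetSum _ fun j _ =>
      (int_phi2 hν R (x i) (x j)).const_mul _
  have hYYm : ∫ g, Y g * Y g ∂ν = ∑ i ∈ Finset.range N, ∑ j ∈ Finset.range N,
        w i * w j * ∫ g, phi R (grad g (x i)) * phi R (grad g (x j)) ∂ν := by
    simp only [hYY]
    rw [integral_finsetSum _ fun i _ => integrable_finsetSum _ fun j _ =>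
      (int_phi2 hν R (x i) (x j)).const_mul _]
    refine Finset.sum_congr rfl fun i _ => ?_
    rw [integral_finsetSum _ fun j _ => (int_phi2 hν R (x i) (x j)).const_mul _]
    exact Finset.sum_congr rfl fun j _ => integral_const_mul _ _
  rw [← hYYm, ← hYm]
  set c := ∫ g, Y g ∂ν with hc
  have h1 : 0 ≤ ∫ g, (Y g * Y g - (2 * c) * Y g + c ^ 2) ∂ν := by
    refine integral_nonneg fun g => ?_
    have : Y g * Y g - (2 * c) * Y g + c ^ 2 = (Y g - c) ^ 2 := by ring
    simp only [Pi.zero_apply]
    rw [this]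
    positivity
  have e1 : Integrable (fun g => Y g * Y g - (2 * c) * Y g) ν := hYYi.sub (hYi.const_mul _)
  rw [integral_add_c e1, integral_sub hYYi (hYi.const_mul _), integral_const_mul, ← hc] at h1
  nlinarith

/-- positive lower density -/
lemma dens_of_cesaro {C : ℕ → ℝ} {E : ℕ → ℕ → ℝ} {c0 B : ℝ} (hB0 : 0 ≤ B)
    (hE : ∀ i k, E i (i + k) = C k) (hE' : ∀ i k, E (i + k) i = C k) (hB : ∀ k, C k ≤ B)
    (hc0 : 0 < c0) (N : ℕ)
    (hces : (N : ℝ) ^ 2 * c0 ≤ ∑ i ∈ Finset.range N, ∑ j ∈ Finset.range N, E i j) :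
    N * (c0 / 2) ≤ 2 * B * ((Finset.range N).filter (fun k => c0 / 2 ≤ C k)).card := by
  classical
  obtain ⟨A, hA⟩ : ∃ A, A = (Finset.range N).filter (fun k => c0 / 2 ≤ C k) := ⟨_, rfl⟩
  rw [← hA]
  rcases Nat.eq_zero_or_pos N with rfl | hN
  · have : 0 ≤ 2 * B * (A.card : ℝ) := by positivity
    simpa using this
  have hrow : ∀ i ∈ Finset.range N, ∑ j ∈ Finset.range N, E i j ≤ N * (c0 / 2) +
      2 * B * A.card := by
    intro i hi
    have hi' := Finset.mem_range.1 hi
    have h1 : ∀ j ∈ Finset.range N, E i j ≤ c0 / 2 +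
        (B * (if j ≤ i ∧ i - j ∈ A then (1 : ℝ) else 0) +
          B * (if i ≤ j ∧ j - i ∈ A then (1 : ℝ) else 0)) := by
      intro j hj
      have hj' := Finset.mem_range.1 hj
      rcases le_total i j with hij | hij
      · obtain ⟨k, rfl⟩ := Nat.exists_eq_add_of_le hij
        rw [hE]
        have e : i + k - i = k := by omega
        rw [e]
        by_cases hk : c0 / 2 ≤ C k
        · have hkA : k ∈ A := by
            rw [hA, Finset.mem_filter, Finset.mem_range]
            exact ⟨by omega, hk⟩
          rw [if_pos (show i ≤ i + k ∧ k ∈ A from ⟨hij, hkA⟩)]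
          have := hB k
          split_ifs <;> linarith
        · push Not at hk
          split_ifs <;> linarith
      · obtain ⟨k, rfl⟩ := Nat.exists_eq_add_of_le hij
        rw [hE']
        have e : j + k - j = k := by omega
        rw [e]
        by_cases hk : c0 / 2 ≤ C k
        · have hkA : k ∈ A := by
            rw [hA, Finset.mem_filter, Finset.mem_range]
            exact ⟨by omega, hk⟩
          rw [if_pos (show j ≤ j + k ∧ k ∈ A from ⟨hij, hkA⟩)]
          have := hB k
          split_ifs <;> linarith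
        · push Not at hk
          split_ifs <;> linarith
    have h2 : (∑ j ∈ Finset.range N, (if j ≤ i ∧ i - j ∈ A then (1 : ℝ) else 0)) ≤ A.card := by
      rw [← Finset.sum_filter, Finset.sum_const, nsmul_eq_mul, mul_one]
      exact_mod_cast Finset.card_le_card_of_injOn (fun j => i - j)
        (fun j hj => by simpa using (Finset.mem_filter.1 hj).2.2)
        (fun a ha b hb hab => by
          have h3 := (Finset.mem_filter.1 ha).2.1
          have h4 := (Finset.mem_filter.1 hb).2.1
          simp only at hab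
          omega)
    have h3 : (∑ j ∈ Finset.range N, (if i ≤ j ∧ j - i ∈ A then (1 : ℝ) else 0)) ≤ A.card := by
      rw [← Finset.sum_filter, Finset.sum_const, nsmul_eq_mul, mul_one]
      exact_mod_cast Finset.card_le_card_of_injOn (fun j => j - i)
        (fun j hj => by simpa using (Finset.mem_filter.1 hj).2.2)
        (fun a ha b hb hab => by
          have h3 := (Finset.mem_filter.1 ha).2.1
          have h4 := (Finset.mem_filter.1 hb).2.1
          simp only at hab
          omega)
    refine (Finset.sum_le_sum h1).trans ?_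
    rw [Finset.sum_add_distrib, Finset.sum_add_distrib, ← Finset.mul_sum, ← Finset.mul_sum,
      Finset.sum_const, Finset.card_range, nsmul_eq_mul]
    have h4 := mul_le_mul_of_nonneg_left h2 hB0
    have h5 := mul_le_mul_of_nonneg_left h3 hB0
    linarith
  have h6 := hces.trans (Finset.sum_le_sum hrow)
  rw [Finset.sum_const, Finset.card_range, nsmul_eq_mul] at h6
  have hN' : (0 : ℝ) < N := by exact_mod_cast hN
  have h7 : (N : ℝ) * (N * c0) ≤ N * (N * (c0 / 2) + 2 * B * A.card) := by
    calc (N : ℝ) * (N * c0) = N ^ 2 * c0 := by ring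
      _ ≤ _ := h6
  have h8 := le_of_mul_le_mul_left h7 hN'
  linarith

/-- The symmetrised law is not decorrelated, in a strong form. -/
theorem not_decorrelated' {ν : Measure (Om d)} (hν : Nice ν) {a : ℝ} (ha : 0 < a)
    (hmean : ∀ x : V d, ∫ w, (w x : ℝ) ∂ν = a * x 0) :
    ∃ (R : ℕ) (ε : ℝ), 0 < ε ∧
      (∀ (x : ℕ → V d) (w : ℕ → ℝ) (N : ℕ), ε * (∑ i ∈ Finset.range N, w i) ^ 2 ≤
        ∑ i ∈ Finset.range N, ∑ j ∈ Finset.range N, w i * w j *
          cov[fun g => phi R (grad g (x i)), fun g => phi R (grad g (x j)); symm ν]) ∧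
      ∃ c : ℝ, 0 < c ∧ ∀ (z : V d) (N : ℕ), c * N ≤ Set.ncard {k : ℕ | k < N ∧
        ε ≤ cov[fun g => phi R (grad g 0), fun g => phi R (grad g (k • z)); symm ν]} := by
  have hprob := hν.wstat.prob
  -- the truncation level
  have h1 : Tendsto (fun R : ℕ => ∫ g, phi R (grad g 0) ∂ν) atTop (𝓝 a) := by
    have h2 : ∫ g : Om d, ((g (0 + Pi.single 0 1) : ℝ) - g 0) ∂ν = a := by
      rw [integral_sub (hν.int _) (hν.int _), hmean, hmean]
      simp
    rw [← h2]
    refine tendsto_integral_of_dominated_convergence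
      (fun g => |(g (0 + Pi.single 0 1) : ℝ) - g 0|)
      (fun R => (loc_phi R 0).measurable.aestronglyMeasurable) ?_ ?_ ?_
    · exact ((hν.int _).sub (hν.int _)).abs
    · intro R
      refine Eventually.of_forall fun g => ?_
      unfold phi grad
      push_cast
      exact abs_trn_le' R _
    · refine Eventually.of_forall fun g => ?_
      unfold phi grad
      push_cast
      exact tendsto_trn _
  obtain ⟨R, hR⟩ := (h1.eventually (lt_mem_nhds ha)).exists
  set m : SG d → Measure (Om d) := fun h => ν.map (Sp h.1 h.2) with hm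
  have hmN : ∀ h, Nice (m h) := fun h => hν.map_Sp h.1 h.2
  have hμ : Nice (symm ν) := hν.symm
  have hμp := hμ.wstat.prob
  have hcard : (0 : ℝ) < Fintype.card (SG d) := by
    have : 0 < Fintype.card (SG d) := Fintype.card_pos
    exact_mod_cast this
  set c0 : ℝ := (Fintype.card (SG d) : ℝ)⁻¹ * ∑ h, (∫ g, phi R (grad g 0) ∂(m h)) ^ 2 with hc0
  have hone : m (1, fun _ => 1) = ν := by
    simp only [hm]
    have : (Sp (1 : Equiv.Perm (Fin d)) (fun _ => (1 : ℤˣ)) : Om d → Om d) = id := by
      funext f y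
      show f _ = f y
      congr 1
      funext k
      simp [sp]
    rw [this, Measure.map_id]
  have hc0pos : 0 < c0 := by
    refine mul_pos (inv_pos.2 hcard) ?_
    refine lt_of_lt_of_le ?_ (Finset.single_le_sum (f := fun h =>
      (∫ g, phi R (grad g 0) ∂(m h)) ^ 2) (fun _ _ => sq_nonneg _)
      (Finset.mem_univ ((1 : Equiv.Perm (Fin d)), fun _ => (1 : ℤˣ))))
    simp only [hone]
    positivity
  -- the mean vanishes
  have hmean0 : ∫ g, phi R (grad g 0) ∂(symm ν) = 0 := by
    have h2 : ∫ g, phi R (grad g 0) ∂(symm ν)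
        = ∫ g, phi R (grad (Sp 1 (fun _ => (-1 : ℤˣ)) g) 0) ∂(symm ν) := by
      conv_lhs => rw [← symm_map ν 1 (fun _ => (-1 : ℤˣ))]
      rw [integral_map (measurable_Sp _ _).aemeasurable
        (loc_phi R 0).measurable.aestronglyMeasurable]
    have h3 : ∀ g : Om d, phi R (grad (Sp 1 (fun _ => (-1 : ℤˣ)) g) 0)
        = - phi R (grad g (0 + -Pi.single 0 1)) := by
      intro g
      unfold phi
      rw [← trn_neg]
      congr 1
      simp only [grad, Sp]
      have e1 : sp 1 (fun _ => (-1 : ℤˣ)) (0 + Pi.single 0 1 : V d) = 0 + -Pi.single 0 1 := by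
        funext k
        simp [sp]
      have e2 : sp 1 (fun _ => (-1 : ℤˣ)) (0 : V d) = 0 := sp_zero _ _
      have e3 : (0 + -Pi.single 0 1 + Pi.single 0 1 : V d) = 0 := by simp
      rw [e1, e2, e3]
      push_cast
      ring
    have h4 : ∫ g, phi R (grad g (0 + -Pi.single 0 1)) ∂(symm ν)
        = ∫ g, phi R (grad g 0) ∂(symm ν) := mean_phi hμ R _
    simp only [h3] at h2
    rw [integral_neg, h4] at h2
    linarith
  have hL2 : ∀ x : V d, MemLp (fun g : Om d => phi R (grad g x)) 2 (symm ν) := fun x =>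
    MemLp.of_bound (loc_phi R x).measurable.aestronglyMeasurable R
      (Eventually.of_forall fun g => abs_phi_le R _)
  have hcov : ∀ x y : V d, cov[fun g => phi R (grad g x), fun g => phi R (grad g y); symm ν] =
      ∫ g, phi R (grad g x) * phi R (grad g y) ∂(symm ν) := by
    intro x y
    rw [covariance_eq_sub (hL2 x) (hL2 y), mean_phi hμ R x, hmean0, zero_mul, sub_zero]
    rfl
  -- the quadratic form
  have hquad : ∀ (x : ℕ → V d) (w : ℕ → ℝ) (N : ℕ), c0 * (∑ i ∈ Finset.range N, w i) ^ 2 ≤
      ∑ i ∈ Finset.range N, ∑ j ∈ Finset.range N, w i * w j *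
        ∫ g, phi R (grad g (x i)) * phi R (grad g (x j)) ∂(symm ν) := by
    intro x w N
    have h2 : ∀ i j, ∫ g, phi R (grad g (x i)) * phi R (grad g (x j)) ∂(symm ν) =
        (Fintype.card (SG d) : ℝ)⁻¹ *
        ∑ h, ∫ g, phi R (grad g (x i)) * phi R (grad g (x j)) ∂(m h) := by
      intro i j
      unfold Pool.Agent.W833.BD.symm
      rw [integral_avg fun h => int_phi2 (hmN h) R _ _]
    have h3 : ∑ i ∈ Finset.range N, ∑ j ∈ Finset.range N, w i * w j *
        ∫ g, phi R (grad g (x i)) * phi R (grad g (x j)) ∂(symm ν)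
        = (Fintype.card (SG d) : ℝ)⁻¹ * ∑ h, ∑ i ∈ Finset.range N, ∑ j ∈ Finset.range N,
          w i * w j * ∫ g, phi R (grad g (x i)) * phi R (grad g (x j)) ∂(m h) := by
      have e1 : ∀ i j, w i * w j * ∫ g, phi R (grad g (x i)) * phi R (grad g (x j)) ∂(symm ν) =
          (Fintype.card (SG d) : ℝ)⁻¹ * ∑ h, w i * w j *
            ∫ g, phi R (grad g (x i)) * phi R (grad g (x j)) ∂(m h) := by
        intro i j
        rw [h2, ← Finset.mul_sum]
        ring
      simp only [e1]
      simp only [← Finset.mul_sum]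
      congr 1
      simp only [Finset.mul_sum]
      rw [Finset.sum_congr rfl fun i _ => Finset.sum_comm, Finset.sum_comm]
    rw [h3, hc0, mul_assoc, Finset.sum_mul]
    refine mul_le_mul_of_nonneg_left (Finset.sum_le_sum fun h _ => ?_) (inv_pos.2 hcard).le
    have h4 := sq_ge_w (hmN h) R x w N
    rw [mul_pow, mul_comm] at h4
    exact h4
  refine ⟨R, c0 / 2, by positivity, fun x w N => ?_, ?_⟩
  · simp only [hcov]
    refine le_trans ?_ (hquad x w N)
    have : 0 ≤ (∑ i ∈ Finset.range N, w i) ^ 2 := sq_nonneg _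
    have := mul_le_mul_of_nonneg_right (by linarith : c0 / 2 ≤ c0) this
    exact this
  · refine ⟨c0 / 2 / (2 * ((R : ℝ) * R + 1)), by positivity, fun z N => ?_⟩
    have hE1 : ∀ i k, (fun i j : ℕ =>
        ∫ g, phi R (grad g (i • z)) * phi R (grad g (j • z)) ∂(symm ν)) i (i + k) =
        ∫ g, phi R (grad g 0) * phi R (grad g (k • z)) ∂(symm ν) := by
      intro i k
      have := corr_phi hμ R 0 (k • z) (i • z)
      simp only []
      rw [← this, zero_add, ← add_smul, add_comm k i]
    have hE2 : ∀ i k, (fun i j : ℕ =>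
        ∫ g, phi R (grad g (i • z)) * phi R (grad g (j • z)) ∂(symm ν)) (i + k) i =
        ∫ g, phi R (grad g 0) * phi R (grad g (k • z)) ∂(symm ν) := by
      intro i k
      rw [← hE1 i k]
      simp only []
      congr 1
      funext g
      exact mul_comm _ _
    have hCB : ∀ k : ℕ, ∫ g, phi R (grad g 0) * phi R (grad g (k • z)) ∂(symm ν) ≤
        (R : ℝ) * R + 1 := by
      intro k
      have h2 := norm_integral_le_of_norm_le_const (μ := symm ν)
        (f := fun g => phi R (grad g 0) * phi R (grad g (k • z))) (C := (R : ℝ) * R)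
        (Eventually.of_forall fun g => by
          rw [Real.norm_eq_abs, abs_mul]
          exact mul_le_mul (abs_phi_le R _) (abs_phi_le R _) (abs_nonneg _) (Nat.cast_nonneg R))
      simp only [probReal_univ, mul_one] at h2
      exact (le_abs_self _).trans (h2.trans (by linarith))
    have h5 := hquad (fun i => i • z) (fun _ => 1) N
    simp only [Finset.sum_const, Finset.card_range, nsmul_eq_mul, mul_one, one_mul] at h5
    have h6 := dens_of_cesaro (B := (R : ℝ) * R + 1) (by positivity) hE1 hE2 hCB hc0pos N (by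
      rw [mul_comm]
      exact h5)
    have hset : {k : ℕ | k < N ∧ c0 / 2 ≤
        cov[fun g => phi R (grad g 0), fun g => phi R (grad g (k • z)); symm ν]} =
        (((Finset.range N).filter (fun k : ℕ => c0 / 2 ≤
          ∫ g, phi R (grad g 0) * phi R (grad g (k • z)) ∂(symm ν)) : Finset ℕ) : Set ℕ) := by
      ext k
      simp only [hcov, Set.mem_ofPred_eq, Finset.coe_filter, Finset.mem_range]
    rw [hset, Set.ncard_coe_finset, div_mul_eq_mul_div, div_le_iff₀ (by positivity)]
    linarith

end Pool.Agent.Y155.BD
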